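import Mathlib
import Pool.Agent.Helper130.JB.Index

set_option autoImplicit false

namespace Pool.Agent.Results.MP_e0f470_an.FiniteCotype

open scoped Topology ENNReal
open Filter

noncomputable section

/-- The sequence `e` is a (Schauder) basis of the real normed space `E`: every `x` in `E` has
exactly one expansion `x = ∑ a_i e_i`, converging in norm. -/
def IsSchauderBasis {E : Type*} [NormedAddCommGroup E] [NormedSpace ℝ E] (e : ℕ → E) : Prop :=
  ∀ x : E, ∃! a : ℕ → ℝ, Tendsto (fun n : ℕ => ∑ i ∈ Finset.range n, a i • e i) atTop (𝓝 x)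

/-- The seminorm `N` is a norm on `E` equivalent to the given one. -/
def IsEquivalentNorm {E : Type*} [NormedAddCommGroup E] [NormedSpace ℝ E]
    (N : Seminorm ℝ E) : Prop :=
  ∃ c C : ℝ, 0 < c ∧ 0 < C ∧ ∀ x : E, c * ‖x‖ ≤ N x ∧ N x ≤ C * ‖x‖

/-- The basis constant of the sequence `e` with respect to the norm `N`: the supremum of
`N (s_n x)` over all `n` and all `x` with `N x ≤ 1`, where `s_n x = ∑_{i < n} a_i e_i` for the
expansion `x = ∑ a_i e_i`. -/
def basisConstant {E : Type*} [NormedAddCommGroup E] [NormedSpace ℝ E] (N : Seminorm ℝ E)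
    (e : ℕ → E) : ℝ≥0∞ :=
  ⨆ (x : E) (_ : N x ≤ 1) (a : ℕ → ℝ)
    (_ : Tendsto (fun n : ℕ => ∑ i ∈ Finset.range n, a i • e i) atTop (𝓝 x)) (n : ℕ),
    ENNReal.ofReal (N (∑ i ∈ Finset.range n, a i • e i))

/-- The index `Γ` of `E` with respect to the norm `N`: the supremum of the reciprocals of the
basis constants of all Schauder bases of `E` (zero when there is no basis). -/
def index {E : Type*} [NormedAddCommGroup E] [NormedSpace ℝ E] (N : Seminorm ℝ E) : ℝ≥0∞ :=
  ⨆ (e : ℕ → E) (_ : IsSchauderBasis e), (basisConstant N e)⁻¹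

/-- The sign `1` or `-1` attached to a Boolean. -/
def sign (b : Bool) : ℝ := if b then 1 else -1

/-- `E` has (Rademacher) cotype `s` with constant `C`: for all finite families `x_1, …, x_r`,
`(∑ ‖x_i‖^s)^(1/s) ≤ C (average over all signs of ‖∑ ± x_i‖^2)^(1/2)`. -/
def HasCotypeWith (s C : ℝ) (E : Type*) [NormedAddCommGroup E] [NormedSpace ℝ E] : Prop :=
  ∀ (r : ℕ) (x : Fin r → E), (∑ i, ‖x i‖ ^ s) ^ (1 / s) ≤
    C * ((∑ ε : Fin r → Bool, ‖∑ i, sign (ε i) • x i‖ ^ 2) / 2 ^ r) ^ (1 / 2 : ℝ)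

/-- `E` has finite cotype: cotype `s` for some `s ∈ [2, ∞)`. -/
def HasFiniteCotype (E : Type*) [NormedAddCommGroup E] [NormedSpace ℝ E] : Prop :=
  ∃ s C : ℝ, 2 ≤ s ∧ HasCotypeWith s C E

open Pool.Agent.Helper519.Schauder Pool.Agent.Helper130.JB

theorem cotype_conv {E : Type*} [NormedAddCommGroup E] [NormedSpace ℝ E] {s C : ℝ}
    (h : HasCotypeWith s C E) : HasCotype s (max C 0) E := by
  intro r x
  refine (h r x).trans ?_
  have h1 : (∑ ε : Fin r → Bool, ‖∑ i, sign (ε i) • x i‖ ^ 2) =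
      ∑ ε : Fin r → Bool, ‖∑ i, sg (ε i) • x i‖ ^ 2 := rfl
  rw [h1]
  exact mul_le_mul_of_nonneg_right (le_max_left _ _) (by positivity)

theorem index_small {E : Type*} [NormedAddCommGroup E] [NormedSpace ℝ E] [CompleteSpace E]
    {e : ℕ → E} (he : IsBasis ℝ e) (K : ℝ) (hK0 : 1 ≤ K) (N : Seminorm ℝ E) (c C : ℝ)
    (hc : 0 < c) (hC : 0 < C) (hN : ∀ x, c * ‖x‖ ≤ N x ∧ N x ≤ C * ‖x‖)
    (hbig : ∀ f : ℕ → E, ∀ hf : IsBasis ℝ f, ¬ ∀ m x, N (S hf m x) ≤ K * N x) :
    0 < index N ∧ index N ≤ (ENNReal.ofReal K)⁻¹ := by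
  obtain ⟨K1, hK1, hKx⟩ := exists_bound he
  constructor
  · -- positivity of the index
    have hfin : basisConstant N e ≤ ENNReal.ofReal (C * (K1 * c⁻¹)) := by
      refine iSup_le fun x => iSup_le fun hx => iSup_le fun a => iSup_le fun ha => iSup_le fun n => ?_
      apply ENNReal.ofReal_le_ofReal
      have ha' : a = coef he x := coef_unique he x a ha
      have h1 : ∑ i ∈ Finset.range n, a i • e i = S he n x := by rw [ha', S_apply]
      rw [h1]
      have h2 := (hN (S he n x)).2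
      have h3 := hKx n x
      have h4 := (hN x).1
      have h5 : ‖x‖ ≤ c⁻¹ := by
        rw [← one_div, le_div_iff₀ hc]
        linarith
      calc _ ≤ C * ‖S he n x‖ := h2
        _ ≤ C * (K1 * c⁻¹) := by
          apply mul_le_mul_of_nonneg_left _ hC.le
          exact h3.trans (mul_le_mul_of_nonneg_left h5 hK1.le)
    have h1 : (basisConstant N e)⁻¹ ≤ index N :=
      le_iSup₂ (f := fun (e : ℕ → E) (_ : IsSchauderBasis e) => (basisConstant N e)⁻¹) e he
    refine lt_of_lt_of_le ?_ h1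
    rw [ENNReal.inv_pos]
    exact ne_top_of_le_ne_top ENNReal.ofReal_ne_top hfin
  · -- the upper bound
    refine iSup_le fun g => iSup_le fun hg => ?_
    rw [ENNReal.inv_le_inv]
    by_contra hlt
    rw [not_le] at hlt
    have hg' : IsBasis ℝ g := hg
    refine hbig g hg' fun n x => ?_
    by_cases hx0 : x = 0
    · rw [hx0, map_zero, map_zero, mul_zero]
    have hNx : 0 < N x := by
      have := (hN x).1
      have h2 : 0 < ‖x‖ := norm_pos_iff.mpr hx0
      have h3 : 0 < c * ‖x‖ := by positivity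
      linarith
    set y : E := (N x)⁻¹ • x with hy
    have hNy : N y ≤ 1 := by
      rw [hy, map_smul_eq_mul, Real.norm_eq_abs, abs_of_pos (by positivity),
        inv_mul_cancel₀ hNx.ne']
    have h3 : ENNReal.ofReal (N (S hg' n y)) ≤ basisConstant N g := by
      have h4 := le_iSup₂ (f := fun (x : E) (_ : N x ≤ 1) => ⨆ (a : ℕ → ℝ)
        (_ : Tendsto (fun n : ℕ => ∑ i ∈ Finset.range n, a i • g i) atTop (𝓝 x)) (n : ℕ),
        ENNReal.ofReal (N (∑ i ∈ Finset.range n, a i • g i))) y hNy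
      refine le_trans ?_ h4
      have h5 := le_iSup₂ (f := fun (a : ℕ → ℝ)
        (_ : Tendsto (fun n : ℕ => ∑ i ∈ Finset.range n, a i • g i) atTop (𝓝 y)) =>
        ⨆ (n : ℕ), ENNReal.ofReal (N (∑ i ∈ Finset.range n, a i • g i))) (coef hg' y)
        (coef_spec hg' y)
      refine le_trans ?_ h5
      exact le_iSup (fun n : ℕ => ENNReal.ofReal (N (∑ i ∈ Finset.range n,
        coef hg' y i • g i))) n
    have h6 : N (S hg' n y) ≤ K := by
      have := (h3.trans hlt.le)
      rwa [ENNReal.ofReal_le_ofReal_iff (by linarith)] at this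
    rw [hy, map_smul, map_smul_eq_mul, Real.norm_eq_abs, abs_of_pos (by positivity),
      inv_mul_le_iff₀ hNx] at h6
    linarith

/-- Every real Banach space `E` with a Schauder basis such that `E` or its dual has finite
cotype has, for every `n ≥ 1`, an equivalent norm whose index is positive and less than `1/n`. -/
theorem result (E : Type*) [NormedAddCommGroup E] [NormedSpace ℝ E] [CompleteSpace E]
    (hE : ∃ e : ℕ → E, IsSchauderBasis e)
    (hcot : HasFiniteCotype E ∨ HasFiniteCotype (E →L[ℝ] ℝ)) (n : ℕ) (hn : 1 ≤ n) :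
    ∃ N : Seminorm ℝ E, IsEquivalentNorm N ∧ 0 < index N ∧ index N < 1 / (n : ℝ≥0∞) := by
  obtain ⟨e, he⟩ := hE
  have he' : IsBasis ℝ e := he
  have hK : (1 : ℝ) ≤ (n : ℝ) + 1 := by
    have : (0 : ℝ) ≤ n := Nat.cast_nonneg n
    linarith
  have key : ∃ (N : Seminorm ℝ E) (c D : ℝ), 0 < c ∧ 0 < D ∧
      (∀ x, c * ‖x‖ ≤ N x ∧ N x ≤ D * ‖x‖) ∧
      ∀ f : ℕ → E, ∀ hf : IsBasis ℝ f, ¬ ∀ m x, N (S hf m x) ≤ ((n : ℝ) + 1) * N x := by
    rcases hcot with ⟨s, C, hs, h⟩ | ⟨s, C, hs, h⟩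
    · exact primal_norm he' s (max C 0) hs (le_max_right _ _) (cotype_conv h) _ hK
    · exact dual_norm he' s (max C 0) hs (le_max_right _ _) (cotype_conv h) _ hK
  obtain ⟨N, c, D, hc, hD, hN, hbig⟩ := key
  obtain ⟨h1, h2⟩ := index_small he' _ hK N c D hc hD hN hbig
  refine ⟨N, ⟨c, D, hc, hD, hN⟩, h1, lt_of_le_of_lt h2 ?_⟩
  rw [one_div, ENNReal.inv_lt_inv]
  have h3 : (n : ℝ≥0∞) = ENNReal.ofReal (n : ℝ) := by simp
  rw [h3, ENNReal.ofReal_lt_ofReal_iff (by linarith)]
  linarith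

end

end Pool.Agent.Results.MP_e0f470_an.FiniteCotype
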