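import Mathlib
import Pool.Agent.Helper519.Uniform

set_option autoImplicit false

namespace Pool.Agent.Results.MP_e0f470_an.UniformIndex

open scoped Topology ENNReal
open Filter

noncomputable section

variable {𝕜 : Type*} [RCLike 𝕜] {E : Type*} [NormedAddCommGroup E] [NormedSpace 𝕜 E]

/-- The sequence `e` is a (Schauder) basis of the real or complex normed space `E`: every `x` in
`E` has exactly one expansion `x = ∑ a_i e_i`, converging in norm. -/
def IsSchauderBasis (𝕜 : Type*) [RCLike 𝕜] {E : Type*} [NormedAddCommGroup E] [NormedSpace 𝕜 E]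
    (e : ℕ → E) : Prop :=
  ∀ x : E, ∃! a : ℕ → 𝕜, Tendsto (fun n : ℕ => ∑ i ∈ Finset.range n, a i • e i) atTop (𝓝 x)

/-- The seminorm `N` is a norm on `E` equivalent to the given one. -/
def IsEquivalentNorm (N : Seminorm 𝕜 E) : Prop :=
  ∃ c C : ℝ, 0 < c ∧ 0 < C ∧ ∀ x : E, c * ‖x‖ ≤ N x ∧ N x ≤ C * ‖x‖

/-- The basis constant of the sequence `e` with respect to the norm `N`: the supremum of
`N (s_n x)` over all `n` and all `x` with `N x ≤ 1`, where `s_n x = ∑_{i < n} a_i e_i` for the
expansion `x = ∑ a_i e_i`. -/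
def basisConstant (N : Seminorm 𝕜 E) (e : ℕ → E) : ℝ≥0∞ :=
  ⨆ (x : E) (_ : N x ≤ 1) (a : ℕ → 𝕜)
    (_ : Tendsto (fun n : ℕ => ∑ i ∈ Finset.range n, a i • e i) atTop (𝓝 x)) (n : ℕ),
    ENNReal.ofReal (N (∑ i ∈ Finset.range n, a i • e i))

/-- The index `Γ` of `E` with respect to the norm `N`: the supremum of the reciprocals of the
basis constants of all Schauder bases of `E` (zero when there is no basis). -/
def index (N : Seminorm 𝕜 E) : ℝ≥0∞ :=
  ⨆ (e : ℕ → E) (_ : IsSchauderBasis 𝕜 e), (basisConstant N e)⁻¹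

open Pool.Agent.Helper519.Schauder Pool.Agent.Helper519.Renorm Pool.Agent.Helper519.Uniform

/-- Every real or complex Banach space with a basis (no matter which) admits an equivalent norm
whose index is positive and at most the absolute constant `1 - 10 ^ (-8)`. -/
theorem result (𝕜 : Type*) [RCLike 𝕜] (E : Type*) [NormedAddCommGroup E] [NormedSpace 𝕜 E]
    [CompleteSpace E] (hE : ∃ e : ℕ → E, IsSchauderBasis 𝕜 e) :
    ∃ N : Seminorm 𝕜 E, IsEquivalentNorm N ∧ 0 < index N ∧
      index N ≤ ENNReal.ofReal (1 - 1 / 10 ^ 8) := by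
  obtain ⟨e, he⟩ := hE
  have he' : IsBasis 𝕜 e := he
  obtain ⟨K, hK, hKx⟩ := exists_bound he'
  obtain ⟨N, c, C, hc, hC, hN, hbig⟩ := exists_norm he'
  have hγ : (0 : ℝ) < γ₀ := by unfold γ₀; norm_num
  refine ⟨N, ⟨c, C, hc, hC, hN⟩, ?_, ?_⟩
  · -- positivity of the index
    have hfin : basisConstant N e ≤ ENNReal.ofReal (C * (K * c⁻¹)) := by
      refine iSup_le fun x => iSup_le fun hx => iSup_le fun a => iSup_le fun ha => iSup_le fun n => ?_
      apply ENNReal.ofReal_le_ofReal
      have ha' : a = coef he' x := coef_unique he' x a ha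
      have h1 : ∑ i ∈ Finset.range n, a i • e i = S he' n x := by rw [ha', S_apply]
      rw [h1]
      have h2 := (hN (S he' n x)).2
      have h3 := hKx n x
      have h4 := (hN x).1
      have h5 : ‖x‖ ≤ c⁻¹ := by
        rw [← one_div, le_div_iff₀ hc]
        linarith
      calc _ ≤ C * ‖S he' n x‖ := h2
        _ ≤ C * (K * c⁻¹) := by
          apply mul_le_mul_of_nonneg_left _ hC.le
          exact h3.trans (mul_le_mul_of_nonneg_left h5 hK.le)
    have h1 : (basisConstant N e)⁻¹ ≤ index N :=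
      le_iSup₂ (f := fun (e : ℕ → E) (_ : IsSchauderBasis 𝕜 e) => (basisConstant N e)⁻¹) e he
    refine lt_of_lt_of_le ?_ h1
    rw [ENNReal.inv_pos]
    exact ne_top_of_le_ne_top ENNReal.ofReal_ne_top hfin
  · -- the upper bound
    have hle : index N ≤ (ENNReal.ofReal (1 + γ₀))⁻¹ := by
      refine iSup_le fun g => iSup_le fun hg => ?_
      rw [ENNReal.inv_le_inv]
      by_contra hlt
      rw [not_le] at hlt
      have hg' : IsBasis 𝕜 g := hg
      refine hbig hg' fun n x => ?_
      by_cases hx0 : x = 0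
      · rw [hx0, map_zero, map_zero, mul_zero]
      have hNx : 0 < N x := by
        have := (hN x).1
        have h2 : 0 < ‖x‖ := norm_pos_iff.mpr hx0
        have h3 : 0 < c * ‖x‖ := by positivity
        linarith
      set y : E := (((N x)⁻¹ : ℝ) : 𝕜) • x with hy
      have hNy : N y ≤ 1 := by
        rw [hy, map_smul_eq_mul, RCLike.norm_ofReal, abs_of_pos (by positivity),
          inv_mul_cancel₀ hNx.ne']
      have h3 : ENNReal.ofReal (N (S hg' n y)) ≤ basisConstant N g := by
        have h4 := le_iSup₂ (f := fun (x : E) (_ : N x ≤ 1) => ⨆ (a : ℕ → 𝕜)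
          (_ : Tendsto (fun n : ℕ => ∑ i ∈ Finset.range n, a i • g i) atTop (𝓝 x)) (n : ℕ),
          ENNReal.ofReal (N (∑ i ∈ Finset.range n, a i • g i))) y hNy
        refine le_trans ?_ h4
        have h5 := le_iSup₂ (f := fun (a : ℕ → 𝕜)
          (_ : Tendsto (fun n : ℕ => ∑ i ∈ Finset.range n, a i • g i) atTop (𝓝 y)) =>
          ⨆ (n : ℕ), ENNReal.ofReal (N (∑ i ∈ Finset.range n, a i • g i))) (coef hg' y)
          (coef_spec hg' y)
        refine le_trans ?_ h5
        exact le_iSup (fun n : ℕ => ENNReal.ofReal (N (∑ i ∈ Finset.range n,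
          coef hg' y i • g i))) n
      have h6 : N (S hg' n y) ≤ 1 + γ₀ := by
        have := (h3.trans hlt.le)
        rwa [ENNReal.ofReal_le_ofReal_iff (by positivity)] at this
      rw [hy, map_smul, map_smul_eq_mul, RCLike.norm_ofReal, abs_of_pos (by positivity),
        inv_mul_le_iff₀ hNx] at h6
      linarith
    refine hle.trans ?_
    rw [← ENNReal.ofReal_inv_of_pos (by positivity)]
    apply ENNReal.ofReal_le_ofReal
    unfold γ₀
    norm_num

end

end Pool.Agent.Results.MP_e0f470_an.UniformIndex
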